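import Pool.Agent.Helper112.Kohn.K1
import Pool.Agent.Helper112.Kohn.K2
import Pool.Agent.Helper112.Kohn.K7
import Pool.Agent.Helper112.Kohn.K8
import Pool.Agent.Helper112.Kohn.K9b
import Pool.Agent.Helper112.Kohn.K10
import Pool.Agent.Helper112.Kohn.K11
import Pool.Agent.Helper112.Kohn.K12
import Pool.Agent.Helper112.Kohn.K13
import Pool.Agent.Helper112.Kohn.K14
import Pool.Agent.Helper112.Kohn.K15
import Pool.Agent.Helper112.Kohn.Spec

/-! Global analytic hypoellipticity of the Kohn Laplacian fails on a compact real analytic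
pseudoconvex CR manifold of real dimension five. -/

open scoped ContDiff ComplexConjugate Real ComplexOrder
open MeasureTheory

noncomputable section

namespace Pool.Agent.Results.MP_e29078_an.KohnTorus
open Pool.Agent.Helper112.Kohn

/-- There are a compact real analytic pseudoconvex CR manifold `M` of hypersurface type of real
dimension five (the torus `ℝ^5/ℤ^5` with `T^{1,0}` spanned by the commuting real analytic complex
vector fields `L 0, L 1`; its Levi form is positive semidefinite and nowhere zero) and a real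
analytic (0,1)-form `g` on `M` such that, for the Kohn Laplacian `□_b` of the real analytic
Hermitian metric with unitary frame `L 0, L 1, L̄ 0, L̄ 1, T`, the equation `□_b u = g` has a
`C^∞` solution `u` that is not real analytic, and has no real analytic solution. -/
theorem result : ∃ (L : Fin 2 → VF) (T : VF),
    IsCR L T ∧
    (∃ lam : X → Matrix (Fin 2) (Fin 2) ℂ, IsLevi L T lam ∧
      ∀ x, (lam x).PosSemidef ∧ lam x ≠ 0) ∧
    ∃ g : Form, AnalyticForm g ∧
      (∃ u : Form, SmoothForm u ∧ box L T u = g ∧ ¬ AnalyticForm u) ∧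
      ¬ ∃ v : Form, AnalyticForm v ∧ box L T v = g := by
  obtain ⟨β, k, l, hk, hk1, hl, hdiv⟩ := liouville
  obtain ⟨c, hc, hmass⟩ := EE_mass
  set a : ℕ → ℂ := fun j => ((Real.exp (-Real.sqrt (k j)) : ℝ) : ℂ) with ha
  have hsum : ∀ r : ℕ, Summable fun j => ‖a j‖ * (k j : ℝ) ^ r := summ hk
  set u : Form := ![fun _ => 0, SS k l a] with hu
  set b : ℕ → ℂ := fun j => ((4 * π ^ 2 * (l j + β * k j) ^ 2 : ℝ) : ℂ) * a j with hb
  set g : Form := ![fun _ => 0, SS k l b] with hg
  have hun : SmoothForm u := by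
    intro j
    fin_cases j
    · exact ⟨fun _ _ => rfl, contDiff_const⟩
    · exact ⟨SS_per, SS_contDiff hl hk1 hsum⟩
  have hbox : box (LL β) TT u = g := by
    funext j x
    fin_cases j
    · exact (box_series β hl hk1 hsum x).1
    · exact (box_series β hl hk1 hsum x).2
  have hbn : ∀ j, ‖b j‖ ≤ Real.exp (-((k j : ℝ) ^ 2)) := by
    intro j
    have h1 : ‖a j‖ ≤ 1 := by
      simp only [ha]
      rw [Complex.norm_real, Real.norm_of_nonneg (Real.exp_pos _).le]
      exact Real.exp_le_one_iff.2 (by simpa using Real.sqrt_nonneg _)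
    have h2 : ‖b j‖ = (4 * π ^ 2 * (l j + β * k j) ^ 2) * ‖a j‖ := by
      have h0 : (0 : ℝ) ≤ 4 * π ^ 2 * (l j + β * k j) ^ 2 := by positivity
      change ‖((4 * π ^ 2 * (l j + β * k j) ^ 2 : ℝ) : ℂ) * a j‖ = _
      rw [norm_mul, Complex.norm_real, Real.norm_of_nonneg h0]
    rw [h2]
    have h3 := (hdiv j).2
    have h4 : π ^ 2 ≤ 10 := by nlinarith [Real.pi_lt_d2, Real.pi_pos]
    have h5 : 0 ≤ (l j + β * k j) ^ 2 := sq_nonneg _
    nlinarith [mul_le_mul_of_nonneg_right h4 h5, norm_nonneg (a j),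
      mul_nonneg (mul_nonneg (by norm_num : (0:ℝ) ≤ 4) (sq_nonneg π)) h5]
  have hgan : AnalyticForm g := by
    intro j
    fin_cases j
    · exact ⟨fun _ _ => rfl, contDiff_const⟩
    · exact ⟨SS_per, SS_analytic hk hl hbn⟩
  have key : ∀ v : Form, AnalyticForm v → box (LL β) TT v = g → False := by
    intro v hv hvg
    have hvs : SmoothForm v := fun j => ⟨(hv j).1, (hv j).2.of_le le_top⟩
    obtain ⟨C, δ, hδ, hdec⟩ := analytic_decay (hv 1).2 (hv 1).1
    refine contr (C := C) hc hδ hk (fun j => ⟨hk1 j, ?_⟩)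
    have h1 := pairing β (k j) (l j) hvs
    have h2 := pairing β (k j) (l j) hun
    rw [hvg] at h1
    rw [hbox, h1] at h2
    have hne : ((4 * π ^ 2 * (l j + β * k j) ^ 2 : ℝ) : ℂ) ≠ 0 := by
      have := (hdiv j).1
      exact_mod_cast (by positivity : (4 * π ^ 2 * (l j + β * k j) ^ 2 : ℝ) ≠ 0)
    have h3 := mul_left_cancel₀ hne h2
    have hs0 : Summable fun j => ‖a j‖ := by simpa using hsum 0
    have h4 : ∫ x in Set.Icc (0 : X) 1, u 1 x * conj (EE (k j) (l j) x) =
      a j * ((∫ x in Set.Icc (0 : X) 1, ‖EE (k j) (l j) x‖ ^ 2 : ℝ) : ℂ) :=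
      SS_pairing hk hs0 j
    have h5 := hdec (k j) (l j)
    rw [h3, h4, norm_mul] at h5
    have h6 := hmass (k j) (l j) (hk1 j)
    have h7 : ‖a j‖ = Real.exp (-Real.sqrt (k j)) := by
      change ‖((Real.exp (-Real.sqrt (k j)) : ℝ) : ℂ)‖ = _
      rw [Complex.norm_real, Real.norm_of_nonneg (Real.exp_pos _).le]
    rw [h7, Complex.norm_real] at h5
    refine le_trans ?_ h5
    gcongr
    exact h6.trans (le_abs_self _)
  refine ⟨LL β, TT, isCR β, ⟨_, isLevi β, fun x => ⟨lam_psd, ?_⟩⟩, g, hgan,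
    ⟨u, hun, hbox, fun h => key u h hbox⟩, fun ⟨v, hv, hvg⟩ => key v hv hvg⟩
  intro h
  have h1 := congrFun (congrFun h 0) 0
  simp at h1

end Pool.Agent.Results.MP_e29078_an.KohnTorus
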